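import Mathlib
import Pool.Agent.H83.Lo.Inj
import Pool.Agent.H96.M7.Extent

set_option autoImplicit false
open Set Filter Topology MeasureTheory
open scoped Real ENNReal

/-!
# Small connected sets have small images: Riemann maps onto the disc (M7, J17a)

`g : U → 𝔻` conformal, `g p₀ = 0`, `P ⊆ U ∩ closedBall p r` connected, `|p₀ - p| ≥ R`: then the
image of `P` has diameter at most `C / √(log (R / r))`.  Length-area, projections and the maximum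
principle; no plane topology and no distortion theorem.
-/

namespace Pool.Agent.H91.M7

open Pool.Agent.H96.M7

section Core

variable {g : ℂ → ℂ} {U : Set ℂ}

/-- A connected subset of the disc that avoids the image of the circle stays on one side. -/
lemma side_of {f : ℂ → ℂ} (hf : ContinuousOn f (Metric.ball 0 1)) {p : ℂ} {ρ : ℝ} {C : Set ℂ}
    (hC : IsPreconnected C) (hCs : C ⊆ Metric.ball 0 1) (hav : ∀ w ∈ C, dist (f w) p ≠ ρ)
    {w₀ : ℂ} (hw₀ : w₀ ∈ C) (h0 : dist (f w₀) p < ρ) : ∀ w ∈ C, dist (f w) p < ρ := by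
  intro w hw
  by_contra hcon
  rw [not_lt] at hcon
  have hd : Continuous (fun x : ℂ => dist x p) := by fun_prop
  have hc : ContinuousOn (fun w => dist (f w) p) C := hd.comp_continuousOn (hf.mono hCs)
  obtain ⟨v, hv, hve⟩ := hC.intermediate_value hw₀ hw hc ⟨h0.le, hcon⟩
  exact hav v hv hve

/-- chord of the disc -/
def chord (L : ℂ →L[ℝ] ℝ) (t : ℝ) : Set ℂ := Metric.ball 0 1 ∩ {w | L w = t}

lemma chord_preconn (L : ℂ →L[ℝ] ℝ) (t : ℝ) : IsPreconnected (chord L t) := by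
  apply Convex.isPreconnected
  apply (convex_ball _ _).inter
  exact (convex_singleton t).is_linear_preimage (f := L) L.isLinear

/-- In every interval longer than `ℓ` there is a chord which avoids the image of the circle. -/
lemma exists_chord (hUo : IsOpen U) (hg : DifferentiableOn ℂ g U) {f : ℂ → ℂ}
    (hfU : ∀ w ∈ Metric.ball (0:ℂ) 1, f w ∈ U) (hgf : ∀ w ∈ Metric.ball (0:ℂ) 1, g (f w) = w)
    {p : ℂ} {ρ ℓ : ℝ} (hρ : 0 < ρ) (hℓ0 : 0 ≤ ℓ) (hℓ : len g U p ρ ≤ ENNReal.ofReal ℓ)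
    (L : ℂ →L[ℝ] ℝ) (hL : ∀ w, |L w| ≤ ‖w‖) {x y : ℝ} (hxy : ℓ < y - x) :
    ∃ t ∈ Ioo x y, ∀ w ∈ chord L t, dist (f w) p ≠ ρ := by
  by_contra! hcon
  have hsub : Ioo x y ⊆ (fun z => L (g z)) '' (U ∩ Metric.sphere p ρ) := by
    intro t ht
    obtain ⟨w, hw, hwρ⟩ := hcon t ht
    refine ⟨f w, ⟨hfU w hw.1, hwρ⟩, ?_⟩
    change L (g (f w)) = t
    rw [hgf w hw.1]
    exact hw.2
  have h3 : volume (Ioo x y) ≤ ENNReal.ofReal ℓ :=
    (measure_mono hsub).trans ((volume_proj_le hUo hg p hρ L hL).trans hℓ)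
  rw [Real.volume_Ioo, ENNReal.ofReal_le_ofReal_iff hℓ0] at h3
  linarith

/-- **The disc, one coordinate**: `L`, `L'` = the two coordinates in one order or the other. -/
lemma extent_disc_aux (hUo : IsOpen U) (hg : DifferentiableOn ℂ g U) {f : ℂ → ℂ}
    (hfd : DifferentiableOn ℂ f (Metric.ball 0 1))
    (hfU : ∀ w ∈ Metric.ball (0:ℂ) 1, f w ∈ U) (hgf : ∀ w ∈ Metric.ball (0:ℂ) 1, g (f w) = w)
    (hfg : ∀ z ∈ U, f (g z) = z) (hgb : ∀ z ∈ U, g z ∈ Metric.ball (0:ℂ) 1)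
    {p : ℂ} {ρ ℓ : ℝ} (hρ : 0 < ρ) (hℓ0 : 0 < ℓ) (hℓ4 : ℓ ≤ 1 / 4)
    (hℓ : len g U p ρ ≤ ENNReal.ofReal ℓ) (h0 : ρ < dist (f 0) p)
    {P : Set ℂ} (hPc : IsPreconnected P) (hPU : P ⊆ U) (hPb : P ⊆ Metric.ball p ρ)
    (L L' : ℂ →L[ℝ] ℝ) (hL : ∀ w, |L w| ≤ ‖w‖) (hL' : ∀ w, |L' w| ≤ ‖w‖)
    (hcoord : ∀ x y : ℝ, ∃ w : ℂ, L w = x ∧ L' w = y)
    (hnorm : ∀ w, ‖w‖ ^ 2 = (L w) ^ 2 + (L' w) ^ 2)
    (hrect : ∀ x₁ x₂ y₁ y₂ : ℝ, x₁ < 0 → 0 < x₂ → y₁ < 0 → 0 < y₂ →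
      (∀ w : ℂ, L w ∈ Icc x₁ x₂ → L' w ∈ Icc y₁ y₂ → w ∈ Metric.ball (0:ℂ) 1) →
      (∀ w : ℂ, L w ∈ Icc x₁ x₂ → L' w ∈ Icc y₁ y₂ →
        (L w = x₁ ∨ L w = x₂ ∨ L' w = y₁ ∨ L' w = y₂) → dist (f w) p ≤ ρ) →
      dist (f 0) p ≤ ρ)
    {z1 z2 : ℂ} (h1 : z1 ∈ P) (h2 : z2 ∈ P) : L (g z2) - L (g z1) ≤ 3 * ℓ := by
  by_contra hcon
  rw [not_le] at hcon
  set a : ℝ := 2 * ℓ with ha
  have ha2 : a ^ 2 ≤ ℓ := by rw [ha]; nlinarith
  have ha1 : a ≤ 1 / 2 := by rw [ha]; linarith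
  have ha0 : 0 < a := by rw [ha]; linarith
  have hP1 := hgb z1 (hPU h1)
  have hP2 := hgb z2 (hPU h2)
  rw [mem_ball_zero_iff] at hP1 hP2
  have hα : -1 < L (g z1) := by
    have := (abs_le.1 (hL (g z1))).1; linarith
  have hβ : L (g z2) < 1 := by
    have := (abs_le.1 (hL (g z2))).2; linarith
  -- a chord through the image of `P`
  obtain ⟨t, ht, htav⟩ := exists_chord hUo hg hfU hgf hρ hℓ0.le hℓ L hL
    (x := max (L (g z1)) (-(1 - a ^ 2))) (y := min (L (g z2)) (1 - a ^ 2)) (by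
      have h3 : max (L (g z1)) (-(1 - a ^ 2)) ≤ L (g z1) + a ^ 2 := max_le (by nlinarith) (by linarith)
      have h4 : L (g z2) - a ^ 2 ≤ min (L (g z2)) (1 - a ^ 2) := le_min (by nlinarith) (by linarith)
      linarith)
  have ht1 : L (g z1) < t := lt_of_le_of_lt (le_max_left _ _) ht.1
  have ht2 : t < L (g z2) := lt_of_lt_of_le ht.2 (min_le_left _ _)
  have ht3 : -(1 - a ^ 2) < t := lt_of_le_of_lt (le_max_right _ _) ht.1
  have ht4 : t < 1 - a ^ 2 := lt_of_lt_of_le ht.2 (min_le_right _ _)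
  have htsq : t ^ 2 + a ^ 2 < 1 := by
    have h5 : 0 < 1 - a ^ 2 := by nlinarith
    have h6 : t ^ 2 < (1 - a ^ 2) ^ 2 := sq_lt_sq' ht3 ht4
    nlinarith [sq_nonneg a]
  obtain ⟨z, hz, hzt⟩ := hPc.intermediate_value h1 h2
    (f := fun z => L (g z)) (L.continuous.comp_continuousOn (hg.continuousOn.mono hPU))
    ⟨ht1.le, ht2.le⟩
  have hfc : ContinuousOn f (Metric.ball 0 1) := hfd.continuousOn
  have hVt : ∀ w ∈ chord L t, dist (f w) p < ρ := by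
    refine side_of hfc (chord_preconn L t) inter_subset_left htav (w₀ := g z) ⟨hgb z (hPU hz), hzt⟩ ?_
    rw [hfg z (hPU hz)]
    exact hPb hz
  -- the four chords around the origin
  obtain ⟨y₂, hy₂, hy₂av⟩ := exists_chord hUo hg hfU hgf hρ hℓ0.le hℓ L' hL' (x := 0) (y := a)
    (by linarith)
  obtain ⟨y₁, hy₁, hy₁av⟩ := exists_chord hUo hg hfU hgf hρ hℓ0.le hℓ L' hL' (x := -a) (y := 0)
    (by linarith)
  obtain ⟨x₂, hx₂, hx₂av⟩ := exists_chord hUo hg hfU hgf hρ hℓ0.le hℓ L hL (x := 0) (y := a)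
    (by linarith)
  obtain ⟨x₁, hx₁, hx₁av⟩ := exists_chord hUo hg hfU hgf hρ hℓ0.le hℓ L hL (x := -a) (y := 0)
    (by linarith)
  have hmem : ∀ x y : ℝ, x ^ 2 + y ^ 2 < 1 → ∃ w ∈ Metric.ball (0:ℂ) 1, L w = x ∧ L' w = y := by
    intro x y hxy
    obtain ⟨w, hw1, hw2⟩ := hcoord x y
    refine ⟨w, ?_, hw1, hw2⟩
    rw [mem_ball_zero_iff]
    have : ‖w‖ ^ 2 < 1 ^ 2 := by rw [hnorm, hw1, hw2]; linarith
    exact lt_of_pow_lt_pow_left₀ 2 (by norm_num) this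
  have hHy : ∀ y : ℝ, |y| < a → (∀ w ∈ chord L' y, dist (f w) p ≠ ρ) →
      ∀ w ∈ chord L' y, dist (f w) p < ρ := by
    intro y hya hav
    have hy2 : y ^ 2 < a ^ 2 := by
      rw [← sq_abs]
      exact pow_lt_pow_left₀ hya (abs_nonneg _) (by norm_num)
    obtain ⟨w, hw, hwx, hwy⟩ := hmem t y (by linarith)
    exact side_of hfc (chord_preconn L' y) inter_subset_left hav (w₀ := w) ⟨hw, hwy⟩
      (hVt w ⟨hw, hwx⟩)
  have hy₂a : |y₂| < a := by rw [abs_of_pos hy₂.1]; exact hy₂.2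
  have hy₁a : |y₁| < a := by rw [abs_of_neg hy₁.2]; linarith [hy₁.1]
  have hx₂a : |x₂| < a := by rw [abs_of_pos hx₂.1]; exact hx₂.2
  have hx₁a : |x₁| < a := by rw [abs_of_neg hx₁.2]; linarith [hx₁.1]
  have hH2 := hHy y₂ hy₂a hy₂av
  have hH1 := hHy y₁ hy₁a hy₁av
  have hVx : ∀ x : ℝ, |x| < a → (∀ w ∈ chord L x, dist (f w) p ≠ ρ) →
      ∀ w ∈ chord L x, dist (f w) p < ρ := by
    intro x hxa hav
    have hx2 : x ^ 2 < a ^ 2 := by
      rw [← sq_abs]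
      exact pow_lt_pow_left₀ hxa (abs_nonneg _) (by norm_num)
    have hy2 : y₂ ^ 2 < a ^ 2 := by
      rw [← sq_abs]
      exact pow_lt_pow_left₀ hy₂a (abs_nonneg _) (by norm_num)
    obtain ⟨w, hw, hwx, hwy⟩ := hmem x y₂ (by nlinarith)
    exact side_of hfc (chord_preconn L x) inter_subset_left hav (w₀ := w) ⟨hw, hwx⟩
      (hH2 w ⟨hw, hwy⟩)
  have hV2 := hVx x₂ hx₂a hx₂av
  have hV1 := hVx x₁ hx₁a hx₁av
  have hball : ∀ w : ℂ, L w ∈ Icc x₁ x₂ → L' w ∈ Icc y₁ y₂ → w ∈ Metric.ball (0:ℂ) 1 := by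
    intro w h3 h4
    rw [mem_ball_zero_iff]
    have h6 : (L w) ^ 2 < a ^ 2 :=
      sq_lt_sq' (lt_of_lt_of_le hx₁.1 h3.1) (lt_of_le_of_lt h3.2 hx₂.2)
    have h7 : (L' w) ^ 2 < a ^ 2 :=
      sq_lt_sq' (lt_of_lt_of_le hy₁.1 h4.1) (lt_of_le_of_lt h4.2 hy₂.2)
    have : ‖w‖ ^ 2 < 1 ^ 2 := by rw [hnorm]; nlinarith
    exact lt_of_pow_lt_pow_left₀ 2 (by norm_num) this
  have := hrect x₁ x₂ y₁ y₂ hx₁.2 hx₂.1 hy₁.2 hy₂.1 hball (by
    intro w hw hw' h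
    have hwn := hball w hw hw'
    rcases h with h3 | h3 | h3 | h3
    · exact (hV1 w ⟨hwn, h3⟩).le
    · exact (hV2 w ⟨hwn, h3⟩).le
    · exact (hH1 w ⟨hwn, h3⟩).le
    · exact (hH2 w ⟨hwn, h3⟩).le)
  linarith

/-- maximum principle on a rectangle -/
lemma rect_max {f : ℂ → ℂ} (hfd : DifferentiableOn ℂ f (Metric.ball 0 1)) {p : ℂ} {ρ : ℝ}
    {x₁ x₂ y₁ y₂ : ℝ} (hx₁ : x₁ < 0) (hx₂ : 0 < x₂) (hy₁ : y₁ < 0) (hy₂ : 0 < y₂)
    (hb : ∀ w : ℂ, w.re ∈ Icc x₁ x₂ → w.im ∈ Icc y₁ y₂ → w ∈ Metric.ball (0:ℂ) 1)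
    (hfr : ∀ w : ℂ, w.re ∈ Icc x₁ x₂ → w.im ∈ Icc y₁ y₂ →
      (w.re = x₁ ∨ w.re = x₂ ∨ w.im = y₁ ∨ w.im = y₂) → dist (f w) p ≤ ρ) :
    dist (f 0) p ≤ ρ := by
  set Q : Set ℂ := Ioo x₁ x₂ ×ℂ Ioo y₁ y₂ with hQ
  have hQb : Bornology.IsBounded Q :=
    (Metric.isBounded_Ioo x₁ x₂).reProdIm (Metric.isBounded_Ioo y₁ y₂)
  have hx : x₁ ≠ x₂ := by linarith
  have hy : y₁ ≠ y₂ := by linarith
  have hcl : closure Q = Icc x₁ x₂ ×ℂ Icc y₁ y₂ := by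
    rw [hQ, Complex.closure_reProdIm, closure_Ioo hx, closure_Ioo hy]
  have hclb : closure Q ⊆ Metric.ball 0 1 := by
    rw [hcl]
    intro w hw
    rw [Complex.mem_reProdIm] at hw
    exact hb w hw.1 hw.2
  have hd : DiffContOnCl ℂ (fun w => f w - p) Q := by
    apply DifferentiableOn.diffContOnCl
    exact (hfd.mono hclb).sub_const p
  have key := Complex.norm_le_of_forall_mem_frontier_norm_le hQb hd (C := ρ) ?_
    (z := 0) ?_
  · rw [dist_eq_norm]; exact key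
  · intro w hw
    rw [← dist_eq_norm]
    have hwc : w ∈ closure Q := frontier_subset_closure hw
    rw [hcl, Complex.mem_reProdIm] at hwc
    refine hfr w hwc.1 hwc.2 ?_
    by_contra hcon
    simp only [not_or] at hcon
    obtain ⟨h1, h2, h3, h4⟩ := hcon
    have hQo : IsOpen Q := isOpen_Ioo.reProdIm isOpen_Ioo
    rw [frontier, hQo.interior_eq] at hw
    apply hw.2
    rw [hQ, Complex.mem_reProdIm]
    exact ⟨⟨lt_of_le_of_ne hwc.1.1 (Ne.symm h1), lt_of_le_of_ne hwc.1.2 h2⟩,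
      ⟨lt_of_le_of_ne hwc.2.1 (Ne.symm h3), lt_of_le_of_ne hwc.2.2 h4⟩⟩
  · apply subset_closure
    rw [hQ, Complex.mem_reProdIm]
    exact ⟨⟨by simpa using hx₁, by simpa using hx₂⟩, ⟨by simpa using hy₁, by simpa using hy₂⟩⟩

/-- **The disc**: real and imaginary extents for a short circle image. -/
theorem extent_disc (hUo : IsOpen U) (hg : DifferentiableOn ℂ g U) (hi : InjOn g U)
    (him : g '' U = Metric.ball 0 1) {p p₀ : ℂ} (hp₀ : p₀ ∈ U) (hgp₀ : g p₀ = 0)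
    {ρ ℓ : ℝ} (hρ : 0 < ρ) (hℓ0 : 0 < ℓ) (hℓ4 : ℓ ≤ 1 / 4)
    (hℓ : len g U p ρ ≤ ENNReal.ofReal ℓ) (h0 : ρ < dist p₀ p)
    {P : Set ℂ} (hPc : IsPreconnected P) (hPU : P ⊆ U) (hPb : P ⊆ Metric.ball p ρ)
    {z1 z2 : ℂ} (h1 : z1 ∈ P) (h2 : z2 ∈ P) :
    |(g z2).re - (g z1).re| ≤ 3 * ℓ ∧ |(g z2).im - (g z1).im| ≤ 3 * ℓ := by
  set f := Function.invFunOn g U with hf
  have hfg : ∀ z ∈ U, f (g z) = z := fun z hz => hi.leftInvOn_invFunOn hz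
  have hfU : ∀ w ∈ Metric.ball (0:ℂ) 1, f w ∈ U := by
    intro w hw
    rw [← him] at hw
    exact Function.invFunOn_mem hw
  have hgf : ∀ w ∈ Metric.ball (0:ℂ) 1, g (f w) = w := by
    intro w hw
    rw [← him] at hw
    exact Function.invFunOn_eq hw
  have hgb : ∀ z ∈ U, g z ∈ Metric.ball (0:ℂ) 1 := by
    intro z hz
    rw [← him]
    exact ⟨z, hz, rfl⟩
  have hfd : DifferentiableOn ℂ f (Metric.ball 0 1) := by
    rw [← him]
    exact Pool.Agent.H83.Lo.differentiableOn_inv hUo hg hi hfg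
  have hf0 : f 0 = p₀ := by rw [← hgp₀, hfg p₀ hp₀]
  have h0' : ρ < dist (f 0) p := by rw [hf0]; exact h0
  have hre : ∀ z1 ∈ P, ∀ z2 ∈ P, (g z2).re - (g z1).re ≤ 3 * ℓ := fun z1 h1 z2 h2 =>
    extent_disc_aux hUo hg hfd hfU hgf hfg hgb hρ hℓ0 hℓ4 hℓ h0' hPc hPU hPb
      Complex.reCLM Complex.imCLM Complex.abs_re_le_norm Complex.abs_im_le_norm
      (fun x y => ⟨⟨x, y⟩, rfl, rfl⟩)
      (fun w => by
        rw [← Complex.normSq_eq_norm_sq, Complex.normSq_apply, Complex.reCLM_apply,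
          Complex.imCLM_apply]
        ring)
      (fun x₁ x₂ y₁ y₂ a b c d hb hfr => rect_max hfd a b c d hb hfr) h1 h2
  have himm : ∀ z1 ∈ P, ∀ z2 ∈ P, (g z2).im - (g z1).im ≤ 3 * ℓ := fun z1 h1 z2 h2 =>
    extent_disc_aux hUo hg hfd hfU hgf hfg hgb hρ hℓ0 hℓ4 hℓ h0' hPc hPU hPb
      Complex.imCLM Complex.reCLM Complex.abs_im_le_norm Complex.abs_re_le_norm
      (fun x y => ⟨⟨y, x⟩, rfl, rfl⟩)
      (fun w => by
        rw [← Complex.normSq_eq_norm_sq, Complex.normSq_apply, Complex.reCLM_apply,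
          Complex.imCLM_apply]
        ring)
      (fun x₁ x₂ y₁ y₂ a b c d hb hfr => rect_max hfd c d a b (fun w hw hw' => hb w hw' hw)
        (fun w hw hw' h => hfr w hw' hw (by tauto))) h1 h2
  constructor
  · rw [abs_le]
    exact ⟨by linarith [hre z2 h2 z1 h1], hre z1 h1 z2 h2⟩
  · rw [abs_le]
    exact ⟨by linarith [himm z2 h2 z1 h1], himm z1 h1 z2 h2⟩

/-- **J17a.**  Conformal maps onto the disc: connected subsets of `U ∩ closedBall p r` have images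
of diameter `≤ 32 π / √(log (R / r))` if the centre `p₀ = g⁻¹ 0` has distance `≥ R` from `p`. -/
theorem ext_disc (hUo : IsOpen U) (hg : DifferentiableOn ℂ g U) (hi : InjOn g U)
    (him : g '' U = Metric.ball 0 1) {p p₀ : ℂ} (hp₀ : p₀ ∈ U) (hgp₀ : g p₀ = 0)
    {r R : ℝ} (hr : 0 < r) (hrR : r < R) (h0 : R ≤ dist p₀ p)
    {P : Set ℂ} (hPc : IsPreconnected P) (hPU : P ⊆ U) (hPb : P ⊆ Metric.closedBall p r)
    {z1 z2 : ℂ} (h1 : z1 ∈ P) (h2 : z2 ∈ P) :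
    dist (g z1) (g z2) ≤ 32 * π / √(Real.log (R / r)) := by
  have hlog : 0 < Real.log (R / r) := Real.log_pos ((one_lt_div hr).2 hrR)
  have hgb : ∀ z ∈ U, g z ∈ Metric.ball (0:ℂ) 1 := by
    intro z hz
    rw [← him]
    exact ⟨z, hz, rfl⟩
  set ℓ : ℝ := 2 * π / √(Real.log (R / r)) with hℓdef
  have hsq : 0 < √(Real.log (R / r)) := Real.sqrt_pos.2 hlog
  have hℓ0 : 0 < ℓ := by positivity
  have e32 : 32 * π / √(Real.log (R / r)) = 16 * ℓ := by rw [hℓdef]; ring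
  rw [e32]
  rcases lt_or_ge (1 / 4) ℓ with hbig | hℓ4
  · have h3 := hgb z1 (hPU h1)
    have h4 := hgb z2 (hPU h2)
    rw [Metric.mem_ball] at h3 h4
    have h5 := dist_triangle_right (g z1) (g z2) 0
    linarith
  have harea : volume (g '' U) ≤ ENNReal.ofReal π := by
    rw [him, Complex.volume_ball]
    simp [← NNReal.coe_real_pi, ENNReal.ofReal_coe_nnreal]
  obtain ⟨ρ, hρ, hlen⟩ := exists_short hUo hg hi Real.pi_pos harea p hr hrR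
  have hρ0 : 0 < ρ := hr.trans hρ.1
  have hℓ : len g U p ρ ≤ ENNReal.ofReal ℓ := by
    have h3 : ENNReal.ofReal (4 * π * π / Real.log (R / r)) = ENNReal.ofReal ℓ ^ 2 := by
      rw [← ENNReal.ofReal_pow hℓ0.le]
      congr 1
      rw [hℓdef, div_pow, Real.sq_sqrt hlog.le]
      ring
    rw [h3] at hlen
    exact (ENNReal.pow_le_pow_left_iff (by norm_num)).1 hlen
  obtain ⟨h3, h4⟩ := extent_disc hUo hg hi him hp₀ hgp₀ hρ0 hℓ0 hℓ4 hℓ (hρ.2.trans_le h0) hPc hPU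
    (hPb.trans (Metric.closedBall_subset_ball hρ.1)) h2 h1
  rw [dist_eq_norm]
  calc ‖g z1 - g z2‖ ≤ |(g z1 - g z2).re| + |(g z1 - g z2).im| := Complex.norm_le_abs_re_add_abs_im _
    _ ≤ 3 * ℓ + 3 * ℓ := by
        rw [Complex.sub_re, Complex.sub_im]
        exact add_le_add h3 h4
    _ ≤ 16 * ℓ := by linarith

end Core

end Pool.Agent.H91.M7
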