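import Mathlib
import Pool.Agent.Q1.M4.Uniq
import Pool.Agent.H83.Lo.Julia

set_option autoImplicit false

/-!
# The primitive of the limit is the logarithm of the conformal map (M7, 3.6)

A bounded open connected set `G`, two holomorphic functions with bounded imaginary parts and
constant boundary values on each of two arcs (finitely many exceptional points): they differ by an
affine map.  Applied to `L = log (ψ - W)`.
-/

namespace Pool.Agent.H91.M7

open Complex Metric Set Filter Topology Bornology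
open Pool.Agent.H83.Lo

/-- Two functions with bounded imaginary parts and constant boundary values on two arcs. -/
theorem im_affine {G : Set ℂ} (hGo : IsOpen G) (hGc : IsPreconnected G) (hGb : IsBounded G)
    (Z : Finset ℂ) (hZ : ∀ a ∈ Z, a ∉ G) {Φ L : ℂ → ℂ} (hΦ : DifferentiableOn ℂ Φ G)
    (hL : DifferentiableOn ℂ L G) {M M' : ℝ} (hM : ∀ z ∈ G, |(Φ z).im| ≤ M)
    (hM' : ∀ z ∈ G, |(L z).im| ≤ M') {cT cS lT lS : ℝ} (hl : lT ≠ lS)
    (hbd : ∀ w ∈ frontier G, w ∉ Z →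
      (Tendsto (fun z => (Φ z).im) (𝓝[G] w) (𝓝 cT) ∧
        Tendsto (fun z => (L z).im) (𝓝[G] w) (𝓝 lT)) ∨
      (Tendsto (fun z => (Φ z).im) (𝓝[G] w) (𝓝 cS) ∧
        Tendsto (fun z => (L z).im) (𝓝[G] w) (𝓝 lS))) :
    ∀ z ∈ G, (Φ z).im = cT + (cS - cT) / (lS - lT) * ((L z).im - lT) := by
  set lam : ℝ := (cS - cT) / (lS - lT) with hlam
  have hlam' : lam * (lS - lT) = cS - cT := by
    rw [hlam]; exact div_mul_cancel₀ _ (sub_ne_zero.2 (Ne.symm hl))
  have him : ∀ z, (Φ z - lam * L z).im = (Φ z).im - lam * (L z).im := by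
    intro z; simp
  have h := Q1.im_const hGo hGc hGb Z hZ (Φ := fun z => Φ z - lam * L z)
    (hΦ.sub (hL.const_mul _)) (M := M + |lam| * M') (k := cT - lam * lT) ?_ ?_
  · intro z hz
    have := h z hz
    simp only [him] at this
    linarith
  · intro z hz
    simp only [him]
    calc |(Φ z).im - lam * (L z).im| ≤ |(Φ z).im| + |lam * (L z).im| := abs_sub _ _
      _ ≤ M + |lam| * M' := by
        rw [abs_mul]
        exact add_le_add (hM z hz) (mul_le_mul_of_nonneg_left (hM' z hz) (abs_nonneg _))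
  · intro w hw hwZ
    have e1 : (fun z => (Φ z - lam * L z).im) = fun z => (Φ z).im - lam * (L z).im := by
      ext z; exact him z
    rw [e1]
    rcases hbd w hw hwZ with ⟨h1, h2⟩ | ⟨h1, h2⟩
    · exact h1.sub (h2.const_mul lam)
    · have e2 : cT - lam * lT = cS - lam * lS := by linarith [hlam', mul_sub lam lS lT]
      rw [e2]
      exact h1.sub (h2.const_mul lam)

/-- The full form: `Φ = lam L + const`. -/
theorem eq_affine {G : Set ℂ} (hGo : IsOpen G) (hGc : IsPreconnected G) (hGb : IsBounded G)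
    (Z : Finset ℂ) (hZ : ∀ a ∈ Z, a ∉ G) {Φ L : ℂ → ℂ} (hΦ : DifferentiableOn ℂ Φ G)
    (hL : DifferentiableOn ℂ L G) {M M' : ℝ} (hM : ∀ z ∈ G, |(Φ z).im| ≤ M)
    (hM' : ∀ z ∈ G, |(L z).im| ≤ M') {cT cS lT lS : ℝ} (hl : lT ≠ lS)
    (hbd : ∀ w ∈ frontier G, w ∉ Z →
      (Tendsto (fun z => (Φ z).im) (𝓝[G] w) (𝓝 cT) ∧
        Tendsto (fun z => (L z).im) (𝓝[G] w) (𝓝 lT)) ∨
      (Tendsto (fun z => (Φ z).im) (𝓝[G] w) (𝓝 cS) ∧
        Tendsto (fun z => (L z).im) (𝓝[G] w) (𝓝 lS))) :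
    ∃ c : ℂ, ∀ z ∈ G, Φ z = ((cS - cT) / (lS - lT) : ℝ) * L z + c := by
  have h := im_affine hGo hGc hGb Z hZ hΦ hL hM hM' hl hbd
  set lam : ℝ := (cS - cT) / (lS - lT) with hlam
  have hd : DifferentiableOn ℂ (fun z => Φ z - lam * L z) G := hΦ.sub (hL.const_mul _)
  have h0 : G.EqOn (deriv fun z => Φ z - lam * L z) 0 := by
    intro z hz
    refine Q1.deriv_eq_zero_of_im_const hGo (Φ := fun z => Φ z - lam * L z)
      (φ := deriv fun z => Φ z - lam * L z) (k := cT - lam * lT) ?_ ?_ z hz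
    · intro w hw
      exact (hd.differentiableAt (hGo.mem_nhds hw)).hasDerivAt
    · intro w hw
      have := h w hw
      simp only [Complex.sub_im, Complex.re_ofReal_mul, Complex.im_ofReal_mul]
      linarith
  obtain ⟨c, hc⟩ := hGo.exists_is_const_of_deriv_eq_zero hGc hd h0
  exact ⟨c, fun z hz => by rw [← hc z hz]; ring⟩

lemma arg_nonneg_UH {z : ℂ} (hz : 0 < z.im) : 0 < z.arg ∧ z.arg < Real.pi :=
  ⟨lt_of_le_of_ne (Complex.arg_nonneg_iff.2 hz.le) (fun h => by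
    have := (Complex.arg_eq_zero_iff.1 h.symm).2
    linarith),
   Complex.arg_lt_pi_iff.2 (Or.inr hz.ne')⟩

lemma differentiableOn_log_sub {G : Set ℂ} {ψ : ℂ → ℂ} (hψ : DifferentiableOn ℂ ψ G)
    (hU : ∀ z ∈ G, 0 < (ψ z).im) (W : ℝ) :
    DifferentiableOn ℂ (fun z => Complex.log (ψ z - W)) G := by
  refine (hψ.sub_const _).clog fun z hz => ?_
  right
  simpa using (hU z hz).ne'

lemma im_log_sub (z : ℂ) : (Complex.log z).im = z.arg := Complex.log_im z

/-- **3.6.**  `ψ : G → ℍ` holomorphic with real boundary values: `> W` on the arc `T`, `< W` on the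
arc `S`.  If `Φ` is holomorphic with bounded imaginary part, with constant boundary values `cT` on
`T` and `cS` on `S`, then `Φ = lam log (ψ - W) + const` with `lam = (cS - cT) / π`. -/
theorem eq_log {G : Set ℂ} (hGo : IsOpen G) (hGc : IsPreconnected G) (hGb : IsBounded G)
    (Z : Finset ℂ) (hZ : ∀ a ∈ Z, a ∉ G) {Φ ψ : ℂ → ℂ} (hΦ : DifferentiableOn ℂ Φ G)
    (hψ : DifferentiableOn ℂ ψ G) (hU : ∀ z ∈ G, 0 < (ψ z).im) {M : ℝ}
    (hM : ∀ z ∈ G, |(Φ z).im| ≤ M) {cT cS W : ℝ}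
    (hbd : ∀ w ∈ frontier G, w ∉ Z → ∃ x : ℝ, Tendsto ψ (𝓝[G] w) (𝓝 (x : ℂ)) ∧
      ((W < x ∧ Tendsto (fun z => (Φ z).im) (𝓝[G] w) (𝓝 cT)) ∨
       (x < W ∧ Tendsto (fun z => (Φ z).im) (𝓝[G] w) (𝓝 cS)))) :
    ∃ c : ℂ, ∀ z ∈ G, Φ z = ((cS - cT) / Real.pi : ℝ) * Complex.log (ψ z - W) + c := by
  have key := eq_affine hGo hGc hGb Z hZ hΦ (differentiableOn_log_sub hψ hU W) hM
    (M' := Real.pi) (lT := 0) (lS := Real.pi) (cT := cT) (cS := cS) ?_
    (Ne.symm Real.pi_ne_zero) ?_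
  · simpa using key
  · intro z hz
    rw [Complex.log_im]
    exact Complex.abs_arg_le_pi _
  · intro w hw hwZ
    obtain ⟨x, hx, h⟩ := hbd w hw hwZ
    have hx' : Tendsto (fun z => ψ z - W) (𝓝[G] w) (𝓝 ((x - W : ℝ) : ℂ)) := by
      have := hx.sub_const (W : ℂ)
      simpa using this
    have hmem : ∀ᶠ z in 𝓝[G] w, ψ z - W ∈ {z : ℂ | 0 ≤ z.im} := by
      filter_upwards [self_mem_nhdsWithin] with z hz
      have := hU z hz
      simpa using this.le
    have hx'' : Tendsto (fun z => ψ z - W) (𝓝[G] w)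
        (𝓝[{z : ℂ | 0 ≤ z.im}] ((x - W : ℝ) : ℂ)) := tendsto_nhdsWithin_iff.2 ⟨hx', hmem⟩
    simp only [Complex.log_im]
    rcases h with ⟨h1, h2⟩ | ⟨h1, h2⟩
    · left
      refine ⟨h2, ?_⟩
      have hc : ContinuousAt Complex.arg ((x - W : ℝ) : ℂ) := by
        apply Complex.continuousAt_arg
        left
        rw [Complex.ofReal_re]; linarith
      have := hc.tendsto.comp hx'
      rw [Complex.arg_ofReal_of_nonneg (by linarith)] at this
      exact this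
    · right
      refine ⟨h2, ?_⟩
      have hc : ContinuousWithinAt Complex.arg {z : ℂ | 0 ≤ z.im} ((x - W : ℝ) : ℂ) := by
        apply Complex.continuousWithinAt_arg_of_re_neg_of_im_zero
        · rw [Complex.ofReal_re]; linarith
        · rw [Complex.ofReal_im]
      have := hc.tendsto.comp hx''
      rw [Complex.arg_ofReal_of_neg (by linarith)] at this
      exact this

/-- **3.6, derivative form.** -/
theorem deriv_log {G : Set ℂ} (hGo : IsOpen G) (hGc : IsPreconnected G) (hGb : IsBounded G)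
    (Z : Finset ℂ) (hZ : ∀ a ∈ Z, a ∉ G) {Φ φ ψ ψ' : ℂ → ℂ}
    (hΦ : ∀ z ∈ G, HasDerivAt Φ (φ z) z) (hψ : ∀ z ∈ G, HasDerivAt ψ (ψ' z) z)
    (hU : ∀ z ∈ G, 0 < (ψ z).im) {M : ℝ}
    (hM : ∀ z ∈ G, |(Φ z).im| ≤ M) {cT cS W : ℝ}
    (hbd : ∀ w ∈ frontier G, w ∉ Z → ∃ x : ℝ, Tendsto ψ (𝓝[G] w) (𝓝 (x : ℂ)) ∧
      ((W < x ∧ Tendsto (fun z => (Φ z).im) (𝓝[G] w) (𝓝 cT)) ∨
       (x < W ∧ Tendsto (fun z => (Φ z).im) (𝓝[G] w) (𝓝 cS)))) :
    ∀ z ∈ G, φ z = ((cS - cT) / Real.pi : ℝ) * (ψ' z / (ψ z - W)) := by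
  have hΦd : DifferentiableOn ℂ Φ G := fun z hz => (hΦ z hz).differentiableAt.differentiableWithinAt
  have hψd : DifferentiableOn ℂ ψ G := fun z hz => (hψ z hz).differentiableAt.differentiableWithinAt
  obtain ⟨c, hc⟩ := eq_log hGo hGc hGb Z hZ hΦd hψd hU hM hbd
  intro z hz
  have h1 : HasDerivAt (fun z => ((cS - cT) / Real.pi : ℝ) * Complex.log (ψ z - W) + c)
      (((cS - cT) / Real.pi : ℝ) * (ψ' z / (ψ z - W))) z := by
    have h2 : HasDerivAt (fun z => Complex.log (ψ z - W)) (ψ' z / (ψ z - W)) z := by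
      refine ((hψ z hz).sub_const (W : ℂ)).clog ?_
      right
      simpa using (hU z hz).ne'
    exact (h2.const_mul _).add_const c
  have h3 : Φ =ᶠ[𝓝 z] fun z => ((cS - cT) / Real.pi : ℝ) * Complex.log (ψ z - W) + c := by
    filter_upwards [hGo.mem_nhds hz] with w hw using hc w hw
  exact ((hΦ z hz).unique (h1.congr_of_eventuallyEq h3))

/-- `cT = cS` would make `Φ` constant. -/
theorem ne_of_deriv_ne {G : Set ℂ} (hGo : IsOpen G) (hGc : IsPreconnected G) (hGb : IsBounded G)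
    (Z : Finset ℂ) (hZ : ∀ a ∈ Z, a ∉ G) {Φ φ : ℂ → ℂ}
    (hΦ : ∀ z ∈ G, HasDerivAt Φ (φ z) z) {M : ℝ}
    (hM : ∀ z ∈ G, |(Φ z).im| ≤ M) {cT cS : ℝ}
    (hbd : ∀ w ∈ frontier G, w ∉ Z →
      (Tendsto (fun z => (Φ z).im) (𝓝[G] w) (𝓝 cT)) ∨
       (Tendsto (fun z => (Φ z).im) (𝓝[G] w) (𝓝 cS))) (hne : ∃ z ∈ G, φ z ≠ 0) : cT ≠ cS := by
  intro h
  obtain ⟨z, hz, hz'⟩ := hne
  have hΦd : DifferentiableOn ℂ Φ G := fun z hz => (hΦ z hz).differentiableAt.differentiableWithinAt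
  have := Q1.im_const hGo hGc hGb Z hZ hΦd hM (k := cT) (by
    intro w hw hwZ
    rcases hbd w hw hwZ with h1 | h1
    · exact h1
    · rw [h]; exact h1)
  exact hz' (Q1.deriv_eq_zero_of_im_const hGo hΦ this z hz)

end Pool.Agent.H91.M7
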