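import Mathlib
import Pool.Agent.H91.M7.Affine

set_option autoImplicit false

/-!
# The start of the chain (M7, 3.7)

Open connected sets `O_m` exhausting the upper half plane, `Z_m : O_m → ℍ` holomorphic with
`arg Z_m` equal to `0` on the boundary points near the positive half line and equal to `π` on the
boundary points near the negative half line: then `Z_m → id` locally uniformly, if `|Z_m (i)| = 1`.
-/

namespace Pool.Agent.H91.M7

open Complex Metric Set Filter Topology Bornology
open Pool.Agent.H83.Lo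

/-! ### A barrier at infinity -/

/-- twice the harmonic measure (times `π`) of the complement of `[-R, R]` -/
noncomputable def bar (R : ℝ) (w : ℂ) : ℝ := 2 * (Real.pi - (w - R).arg + (w + R).arg)

lemma bar_nonneg (R : ℝ) {w : ℂ} (hw : 0 < w.im) : 0 ≤ bar R w := by
  have h1 := Complex.arg_le_pi (w - R)
  have h2 : 0 ≤ (w + R).arg := Complex.arg_nonneg_iff.2 (by simpa using hw.le)
  unfold bar; linarith

lemma pi_le_bar {R : ℝ} (hR : 0 < R) {w : ℂ} (hw : 0 < w.im) (h : R ≤ ‖w‖) : Real.pi ≤ bar R w := by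
  have hα := arg_nonneg_UH (z := w - R) (by simpa using hw)
  have hβ := arg_nonneg_UH (z := w + R) (by simpa using hw)
  have h1 : w - R ≠ 0 := by
    intro h; have := congrArg Complex.im h; simp at this; linarith
  have h2 : w + R ≠ 0 := by
    intro h; have := congrArg Complex.im h; simp at this; linarith
  have hcos : 0 ≤ Real.cos ((w - R).arg - (w + R).arg) := by
    rw [Real.cos_sub, Complex.cos_arg h1, Complex.cos_arg h2, Complex.sin_arg, Complex.sin_arg]
    rw [div_mul_div_comm, div_mul_div_comm, ← add_div]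
    apply div_nonneg
    · have h3 : R ^ 2 ≤ ‖w‖ ^ 2 := by gcongr
      rw [← Complex.normSq_eq_norm_sq, Complex.normSq_apply] at h3
      simp only [Complex.sub_re, Complex.add_re, Complex.sub_im, Complex.add_im, Complex.ofReal_re,
        Complex.ofReal_im]
      nlinarith
    · positivity
  unfold bar
  by_contra hcon
  push Not at hcon
  have h4 : Real.pi / 2 < (w - R).arg - (w + R).arg := by linarith
  have h5 := Real.cos_neg_of_pi_div_two_lt_of_lt h4 (by linarith)
  linarith

/-- The barrier is small near a given point when `R` is large. -/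
lemma exists_bar (B : ℝ) {ε : ℝ} (hε : 0 < ε) : ∃ R : ℝ, 0 < R ∧
    ∀ w : ℂ, 0 < w.im → ‖w‖ ≤ B → bar R w < ε := by
  have h1 : ∀ᶠ u : ℂ in 𝓝 0, 0 ≤ u.im → |(u - 1).arg - Real.pi| < ε / 4 := by
    have hc : ContinuousWithinAt Complex.arg {z : ℂ | 0 ≤ z.im} (-1) := by
      apply Complex.continuousWithinAt_arg_of_re_neg_of_im_zero <;> simp
    have ht : Tendsto (fun u : ℂ => u - 1) (𝓝[{z : ℂ | 0 ≤ z.im}] 0)
        (𝓝[{z : ℂ | 0 ≤ z.im}] (-1)) := by
      apply tendsto_nhdsWithin_iff.2
      constructor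
      · have : Tendsto (fun u : ℂ => u - 1) (𝓝 0) (𝓝 (0 - 1)) := (continuous_id.sub continuous_const).tendsto 0
        rw [zero_sub] at this
        exact this.mono_left nhdsWithin_le_nhds
      · filter_upwards [self_mem_nhdsWithin] with u hu
        simpa using hu
    have := hc.tendsto.comp ht
    rw [Complex.arg_neg_one] at this
    have h := (Metric.tendsto_nhds.1 this) (ε / 4) (by positivity)
    rw [eventually_nhdsWithin_iff] at h
    filter_upwards [h] with u hu hu'
    exact hu hu'
  have h2 : ∀ᶠ u : ℂ in 𝓝 0, |(u + 1).arg| < ε / 4 := by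
    have hc : ContinuousAt Complex.arg (0 + 1) := by
      apply Complex.continuousAt_arg; left; simp
    have ht : Tendsto (fun u : ℂ => u + 1) (𝓝 0) (𝓝 (0 + 1)) := (continuous_id.add continuous_const).tendsto 0
    have := hc.tendsto.comp ht
    rw [zero_add, Complex.arg_one] at this
    have h := (Metric.tendsto_nhds.1 this) (ε / 4) (by positivity)
    filter_upwards [h] with u hu
    simpa using hu
  obtain ⟨ρ, hρ, hball⟩ := Metric.eventually_nhds_iff.1 (h1.and h2)
  refine ⟨(|B| + 1) / ρ, by positivity, fun w hw hwB => ?_⟩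
  set R : ℝ := (|B| + 1) / ρ with hRdef
  have hR : 0 < R := by positivity
  have hu : dist (w / R) 0 < ρ := by
    rw [dist_zero_right, norm_div, Complex.norm_real, Real.norm_of_nonneg hR.le, div_lt_iff₀ hR,
      hRdef, mul_div_cancel₀ _ hρ.ne']
    linarith [le_abs_self B]
  obtain ⟨h3, h4⟩ := hball hu
  have him : 0 ≤ (w / R).im := by
    rw [Complex.div_ofReal_im]; positivity
  have h3 := h3 him
  have hR' : (R : ℂ) ≠ 0 := by exact_mod_cast hR.ne'
  have e1 : w - R = R * (w / R - 1) := by field_simp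
  have e2 : w + R = R * (w / R + 1) := by field_simp
  unfold bar
  rw [e1, e2, Complex.arg_real_mul _ hR, Complex.arg_real_mul _ hR]
  rw [abs_lt] at h3 h4
  linarith [h3.1, h4.2]

lemma continuousAt_arg_add (x : ℝ) {w : ℂ} (hw : 0 < w.im) :
    ContinuousAt (fun z : ℂ => (z + x).arg) w := by
  have h : ContinuousAt Complex.arg (w + x) :=
    Complex.continuousAt_arg (Or.inr (by simpa using hw.ne'))
  exact h.comp_of_eq (continuous_id.add continuous_const).continuousAt rfl

lemma continuousAt_arg_sub (x : ℝ) {w : ℂ} (hw : 0 < w.im) :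
    ContinuousAt (fun z : ℂ => (z - x).arg) w := by
  have := continuousAt_arg_add (-x) hw
  simpa [sub_eq_add_neg] using this

lemma continuousAt_bar (R : ℝ) {w : ℂ} (hw : 0 < w.im) : ContinuousAt (bar R) w := by
  unfold bar
  exact ((continuousAt_const.sub (continuousAt_arg_sub R hw)).add
    (continuousAt_arg_add R hw)).const_mul 2

lemma differentiableOn_log_add {O : Set ℂ} (hO : O ⊆ UH) (x : ℝ) :
    DifferentiableOn ℂ (fun z => Complex.log (z + x)) O := by
  refine (differentiableOn_id.add_const _).clog fun z hz => ?_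
  right
  have := hO hz
  rw [mem_UH] at this
  simpa using this.ne'

/-- Upper bound for the argument. -/
theorem arg_le {O : Set ℂ} (hOo : IsOpen O) (hOc : IsPreconnected O) (hOb : IsBounded O)
    (hOU : O ⊆ UH) (hfr : frontier O ⊆ UH) (E : Finset ℂ) (hE : ∀ a ∈ E, a ∉ O) {Z : ℂ → ℂ}
    (hZ : DifferentiableOn ℂ Z O) (hZU : ∀ z ∈ O, Z z ∈ UH) {R s η : ℝ} (hR : 0 < R)
    (hη : 0 ≤ η)
    (hbd : ∀ ζ ∈ frontier O, ζ ∉ E → ‖ζ‖ < R →
      Tendsto (fun z => (Z z).arg) (𝓝[O] ζ) (𝓝 0) ∨ Real.pi - (ζ - s).arg ≤ η) :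
    ∀ w ∈ O, (Z w).arg ≤ (w - s).arg + bar R w + η := by
  set Φ : ℂ → ℂ := fun w => Complex.log (Z w - (0:ℝ)) - Complex.log (w + (-s:ℝ)) -
    2 * (Real.pi * I - Complex.log (w + (-R:ℝ)) + Complex.log (w + R)) - η * I with hΦ
  have him : ∀ w, (Φ w).im = (Z w).arg - (w - s).arg - bar R w - η := by
    intro w
    rw [hΦ]
    simp only [Complex.sub_im, Complex.add_im, Complex.mul_im, Complex.log_im, Complex.ofReal_zero,
      sub_zero, Complex.ofReal_neg, ← sub_eq_add_neg, Complex.I_im, Complex.I_re,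
      Complex.ofReal_re, Complex.ofReal_im]
    unfold bar
    norm_num
  have hd : DifferentiableOn ℂ Φ O := by
    refine ((((differentiableOn_log_sub hZ hZU 0).sub
      (differentiableOn_log_add hOU (-s))).sub ?_).sub_const _)
    exact (((differentiableOn_log_add hOU (-R)).const_sub _).add
      (differentiableOn_log_add hOU R)).const_mul _
  have key := Q1.im_nonpos hOo hOc hOb E hE hd (M := Real.pi) ?_ ?_
  · intro w hw
    have := key w hw
    rw [him] at this
    linarith
  · intro w hw
    rw [him]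
    have h1 := Complex.arg_le_pi (Z w)
    have h2 : 0 ≤ (w - s).arg := Complex.arg_nonneg_iff.2 (by simpa using (hOU hw).le)
    have h3 := bar_nonneg R (hOU hw)
    linarith
  · intro ζ hζ hζE ε hε
    have hζU := hfr hζ
    have hcont : ContinuousAt (fun w : ℂ => (w - s).arg + bar R w) ζ :=
      (continuousAt_arg_sub s hζU).add (continuousAt_bar R hζU)
    have hcase : Tendsto (fun z => (Z z).arg) (𝓝[O] ζ) (𝓝 0) ∨
        Real.pi - η ≤ (ζ - s).arg + bar R ζ := by
      rcases lt_or_ge ‖ζ‖ R with hlt | hge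
      · rcases hbd ζ hζ hζE hlt with h | h
        · exact Or.inl h
        · right
          have := bar_nonneg R hζU
          linarith
      · right
        have h1 := pi_le_bar hR hζU hge
        have h2 : 0 ≤ (ζ - s).arg := Complex.arg_nonneg_iff.2 (by simpa using hζU.le)
        linarith
    rcases hcase with h | h
    · filter_upwards [h.eventually (gt_mem_nhds hε), self_mem_nhdsWithin] with w hw hwO
      rw [him]
      have h2 : 0 ≤ (w - s).arg := Complex.arg_nonneg_iff.2 (by simpa using (hOU hwO).le)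
      have h3 := bar_nonneg R (hOU hwO)
      linarith
    · have h1 : ∀ᶠ w : ℂ in 𝓝 ζ, Real.pi - η - ε < (w - s).arg + bar R w :=
        hcont.eventually (lt_mem_nhds (by linarith))
      filter_upwards [mem_nhdsWithin_of_mem_nhds h1] with w hw
      rw [him]
      have := Complex.arg_le_pi (Z w)
      linarith

/-- Lower bound for the argument. -/
theorem le_arg {O : Set ℂ} (hOo : IsOpen O) (hOc : IsPreconnected O) (hOb : IsBounded O)
    (hOU : O ⊆ UH) (hfr : frontier O ⊆ UH) (E : Finset ℂ) (hE : ∀ a ∈ E, a ∉ O) {Z : ℂ → ℂ}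
    (hZ : DifferentiableOn ℂ Z O) (hZU : ∀ z ∈ O, Z z ∈ UH) {R s η : ℝ} (hR : 0 < R)
    (hη : 0 ≤ η)
    (hbd : ∀ ζ ∈ frontier O, ζ ∉ E → ‖ζ‖ < R →
      Tendsto (fun z => (Z z).arg) (𝓝[O] ζ) (𝓝 Real.pi) ∨ (ζ + s).arg ≤ η) :
    ∀ w ∈ O, (w + s).arg - bar R w - η ≤ (Z w).arg := by
  set Φ : ℂ → ℂ := fun w => Complex.log (w + s) - Complex.log (Z w - (0:ℝ)) -
    2 * (Real.pi * I - Complex.log (w + (-R:ℝ)) + Complex.log (w + R)) - η * I with hΦ
  have him : ∀ w, (Φ w).im = (w + s).arg - (Z w).arg - bar R w - η := by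
    intro w
    rw [hΦ]
    simp only [Complex.sub_im, Complex.add_im, Complex.mul_im, Complex.log_im, Complex.ofReal_zero,
      sub_zero, Complex.ofReal_neg, ← sub_eq_add_neg, Complex.I_im, Complex.I_re,
      Complex.ofReal_re, Complex.ofReal_im]
    unfold bar
    norm_num
  have hd : DifferentiableOn ℂ Φ O := by
    refine ((((differentiableOn_log_add hOU s).sub
      (differentiableOn_log_sub hZ hZU 0)).sub ?_).sub_const _)
    exact (((differentiableOn_log_add hOU (-R)).const_sub _).add
      (differentiableOn_log_add hOU R)).const_mul _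
  have key := Q1.im_nonpos hOo hOc hOb E hE hd (M := Real.pi) ?_ ?_
  · intro w hw
    have := key w hw
    rw [him] at this
    linarith
  · intro w hw
    rw [him]
    have h1 := Complex.arg_le_pi (w + s)
    have h2 : 0 ≤ (Z w).arg := Complex.arg_nonneg_iff.2 (hZU w hw).le
    have h3 := bar_nonneg R (hOU hw)
    linarith
  · intro ζ hζ hζE ε hε
    have hζU := hfr hζ
    have hcont : ContinuousAt (fun w : ℂ => bar R w - (w + s).arg) ζ :=
      (continuousAt_bar R hζU).sub (continuousAt_arg_add s hζU)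
    have hcase : Tendsto (fun z => (Z z).arg) (𝓝[O] ζ) (𝓝 Real.pi) ∨
        - η ≤ bar R ζ - (ζ + s).arg := by
      rcases lt_or_ge ‖ζ‖ R with hlt | hge
      · rcases hbd ζ hζ hζE hlt with h | h
        · exact Or.inl h
        · right
          have := bar_nonneg R hζU
          linarith
      · right
        have h1 := pi_le_bar hR hζU hge
        have h2 := Complex.arg_le_pi (ζ + s)
        linarith
    rcases hcase with h | h
    · filter_upwards [h.eventually (lt_mem_nhds (show Real.pi - ε < Real.pi by linarith)),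
        self_mem_nhdsWithin] with w hw hwO
      rw [him]
      have h2 := Complex.arg_le_pi (w + s)
      have h3 := bar_nonneg R (hOU hwO)
      linarith
    · have h1 : ∀ᶠ w : ℂ in 𝓝 ζ, - η - ε < bar R w - (w + s).arg :=
        hcont.eventually (lt_mem_nhds (by linarith))
      filter_upwards [mem_nhdsWithin_of_mem_nhds h1, self_mem_nhdsWithin] with w hw hwO
      rw [him]
      have h2 : 0 ≤ (Z w).arg := Complex.arg_nonneg_iff.2 (hZU w hwO).le
      linarith

/-! ### Location of the boundary points -/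

lemma arg_le_of_near {s η : ℝ} (hs : 0 < s) (hη : 0 < η) (hη' : η ≤ 1) :
    ∃ δ : ℝ, 0 < δ ∧ ∀ ζ : ℂ, 0 < ζ.im → ζ.im < δ → -δ < ζ.re → (ζ + s).arg ≤ η := by
  have hπ := Real.pi_gt_three
  have hsin : 0 < Real.sin η := Real.sin_pos_of_pos_of_lt_pi hη (by linarith)
  refine ⟨min (s / 2) (s / 2 * Real.sin η), by positivity, fun ζ h0 h1 h2 => ?_⟩
  have h3 : ζ.im < s / 2 * Real.sin η := lt_of_lt_of_le h1 (min_le_right _ _)
  have h4 : -(s / 2) < ζ.re := by
    have := min_le_left (s / 2) (s / 2 * Real.sin η)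
    linarith
  have hre : s / 2 < (ζ + s).re := by simp; linarith
  have him : (ζ + s).im = ζ.im := by simp
  rw [Complex.arg_of_re_nonneg (by linarith), him]
  have hn : s / 2 < ‖ζ + s‖ := lt_of_lt_of_le hre (Complex.re_le_norm _)
  have h5 : ζ.im / ‖ζ + s‖ ≤ Real.sin η := by
    rw [div_le_iff₀ (by linarith)]
    nlinarith
  calc Real.arcsin (ζ.im / ‖ζ + s‖) ≤ Real.arcsin (Real.sin η) := Real.monotone_arcsin h5
    _ = η := Real.arcsin_sin (by linarith) (by linarith)

lemma pi_sub_arg_le_of_near {s η : ℝ} (hs : 0 < s) (hη : 0 < η) (hη' : η ≤ 1) :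
    ∃ δ : ℝ, 0 < δ ∧ ∀ ζ : ℂ, 0 < ζ.im → ζ.im < δ → ζ.re < δ → Real.pi - (ζ - s).arg ≤ η := by
  have hπ := Real.pi_gt_three
  have hsin : 0 < Real.sin η := Real.sin_pos_of_pos_of_lt_pi hη (by linarith)
  refine ⟨min (s / 2) (s / 2 * Real.sin η), by positivity, fun ζ h0 h1 h2 => ?_⟩
  have h3 : ζ.im < s / 2 * Real.sin η := lt_of_lt_of_le h1 (min_le_right _ _)
  have h4 : ζ.re < s / 2 := lt_of_lt_of_le h2 (min_le_left _ _)
  have hre : (ζ - s).re < -(s / 2) := by simp; linarith
  have him : (-(ζ - s)).im = -ζ.im := by simp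
  rw [Complex.arg_of_re_neg_of_im_nonneg (by linarith) (by simpa using h0.le), him]
  have hn : s / 2 < ‖ζ - s‖ := by
    have := Complex.abs_re_le_norm (ζ - s)
    have := neg_le_abs (ζ - s).re
    linarith
  have h5 : ζ.im / ‖ζ - s‖ ≤ Real.sin η := by
    rw [div_le_iff₀ (by linarith)]
    nlinarith
  have h6 : Real.arcsin (ζ.im / ‖ζ - s‖) ≤ η := by
    calc Real.arcsin (ζ.im / ‖ζ - s‖) ≤ Real.arcsin (Real.sin η) := Real.monotone_arcsin h5
      _ = η := Real.arcsin_sin (by linarith) (by linarith)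
  rw [neg_div, Real.arcsin_neg]
  linarith

end Pool.Agent.H91.M7
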