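import Mathlib
import Pool.Agent.H91.M7.Start

set_option autoImplicit false

/-!
# The start of the chain, second part: convergence
-/

namespace Pool.Agent.H91.M7

open Complex Metric Set Filter Topology Bornology
open Pool.Agent.H83.Lo

/-! ### Imaginary parts tend to zero, one value tends to zero: everything tends to zero -/

lemma norm_sub_le_of_im {F : ℂ → ℂ} {c : ℂ} {r δ : ℝ} (hr : 0 < r) (hδ : 0 < δ)
    (hF : DifferentiableOn ℂ F (ball c r)) (him : ∀ z ∈ ball c r, |(F z).im| ≤ δ) {z : ℂ}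
    (hz : z ∈ ball c (r / 2)) : ‖F z - F c‖ ≤ 4 * δ := by
  set g : ℂ → ℂ := fun ζ => -I * (F (c + ζ) - F c) with hg
  have hmap : ∀ ζ ∈ ball (0:ℂ) r, c + ζ ∈ ball c r := by
    intro ζ hζ
    rw [mem_ball_zero_iff] at hζ
    rw [mem_ball_iff_norm]
    simpa using hζ
  have hgd : DifferentiableOn ℂ g (ball 0 r) := by
    refine DifferentiableOn.const_mul (DifferentiableOn.sub_const ?_ _) _
    exact hF.comp ((differentiableOn_const c).add differentiableOn_id) hmap
  have hcb : c ∈ ball c r := mem_ball_self hr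
  have hgre : MapsTo g (ball 0 r) {z | z.re ≤ 2 * δ} := by
    intro ζ hζ
    have h1 := abs_le.1 (him _ (hmap ζ hζ))
    have h2 := abs_le.1 (him _ hcb)
    have e : (g ζ).re = (F (c + ζ)).im - (F c).im := by
      rw [hg]; simp
    change (g ζ).re ≤ 2 * δ
    rw [e]; linarith [h1.2, h2.1]
  have hz' : ‖z - c‖ < r / 2 := mem_ball_iff_norm.1 hz
  have hzr : z - c ∈ ball (0:ℂ) r := by
    rw [mem_ball_zero_iff]; linarith
  have key := Complex.borelCaratheodory_zero (f := g) (M := 2 * δ) (R := r) (by positivity) hgd hgre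
    hr hzr (by rw [hg]; simp)
  have e : ‖g (z - c)‖ = ‖F z - F c‖ := by
    rw [hg]; simp
  rw [e] at key
  refine key.trans ?_
  rw [div_le_iff₀ (by linarith)]
  nlinarith [norm_nonneg (z - c)]

theorem tendsto_of_im {ι : Type*} {l : Filter ι} {U : Set ℂ} (hUo : IsOpen U)
    (hUc : IsPreconnected U) {F : ι → ℂ → ℂ}
    (hdiff : ∀ c ∈ U, ∃ r : ℝ, 0 < r ∧ ∀ᶠ m in l, DifferentiableOn ℂ (F m) (ball c r))
    (him : TendstoLocallyUniformlyOn (fun m z => (F m z).im) (fun _ => 0) l U)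
    {z₀ : ℂ} (hz₀ : z₀ ∈ U) (h₀ : Tendsto (fun m => F m z₀) l (𝓝 0)) :
    TendstoLocallyUniformlyOn F (fun _ => 0) l U := by
  have hA : ∀ c ∈ U, ∃ r : ℝ, 0 < r ∧ ∀ ε > 0, ∀ᶠ m in l, ∀ z ∈ ball c r, ‖F m z - F m c‖ < ε := by
    intro c hc
    obtain ⟨r₀, hr₀, hd⟩ := hdiff c hc
    obtain ⟨r₁, hr₁, hsub⟩ := Metric.nhds_basis_closedBall.mem_iff.1 (hUo.mem_nhds hc)
    set r := min r₀ r₁ with hr
    have hr0 : 0 < r := lt_min hr₀ hr₁
    refine ⟨r / 2, by positivity, fun ε hε => ?_⟩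
    have hK : TendstoUniformlyOn (fun m z => (F m z).im) (fun _ => 0) l (closedBall c r₁) :=
      (tendstoLocallyUniformlyOn_iff_forall_isCompact hUo).1 him _ hsub (isCompact_closedBall c r₁)
    have hev := Metric.tendstoUniformlyOn_iff.1 hK (ε / 5) (by positivity)
    filter_upwards [hd, hev] with m hm hm' z hz
    have h1 := norm_sub_le_of_im (F := F m) (c := c) (r := r) (δ := ε / 5) hr0 (by positivity)
      (hm.mono (ball_subset_ball (min_le_left _ _))) (by
        intro w hw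
        have := hm' w (ball_subset_closedBall (ball_subset_ball (min_le_right _ _) hw))
        rw [dist_zero_left, Real.norm_eq_abs] at this
        exact this.le) hz
    linarith
  have hB : ∀ z ∈ U, Tendsto (fun m => F m z - F m z₀) l (𝓝 0) := by
    intro z hz
    refine hUc.induction₂ (fun x y => Tendsto (fun m => F m y - F m x) l (𝓝 0)) ?_ ?_ ?_ hz₀ hz
    · intro x hx
      obtain ⟨r, hr, h⟩ := hA x hx
      filter_upwards [mem_nhdsWithin_of_mem_nhds (ball_mem_nhds x hr)] with y hy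
      rw [Metric.tendsto_nhds]
      intro ε hε
      filter_upwards [h ε hε] with m hm
      rw [dist_zero_right]
      exact hm y hy
    · intro x y w _ _ _ h1 h2
      have := h2.add h1
      simpa using this
    · intro x y _ _ h1
      have := h1.neg
      simpa using this
  have hC : ∀ z ∈ U, Tendsto (fun m => F m z) l (𝓝 0) := by
    intro z hz
    have := (hB z hz).add h₀
    simpa using this
  rw [Metric.tendstoLocallyUniformlyOn_iff]
  intro ε hε c hc
  obtain ⟨r, hr, h⟩ := hA c hc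
  refine ⟨ball c r, mem_nhdsWithin_of_mem_nhds (ball_mem_nhds c hr), ?_⟩
  have h1 := Metric.tendsto_nhds.1 (hC c hc) (ε / 2) (by positivity)
  filter_upwards [h (ε / 2) (by positivity), h1] with m hm hm' z hz
  rw [dist_zero_left]
  rw [dist_zero_right] at hm'
  calc ‖F m z‖ = ‖(F m z - F m c) + F m c‖ := by ring_nf
    _ ≤ ‖F m z - F m c‖ + ‖F m c‖ := norm_add_le _ _
    _ < ε := by linarith [hm z hz]

/-! ### Main theorem -/

/-- Locally uniform convergence of the arguments. -/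
theorem tendsto_arg {ι : Type*} {l : Filter ι} {O : ι → Set ℂ} {Z : ι → ℂ → ℂ} (E : ι → Finset ℂ)
    (hOo : ∀ m, IsOpen (O m)) (hOc : ∀ m, IsPreconnected (O m)) (hOb : ∀ m, IsBounded (O m))
    (hOU : ∀ m, closure (O m) ⊆ UH) (hK : ∀ K ⊆ UH, IsCompact K → ∀ᶠ m in l, K ⊆ O m)
    (hE : ∀ m, ∀ a ∈ E m, a ∉ O m) (hZ : ∀ m, DifferentiableOn ℂ (Z m) (O m))
    (hZU : ∀ m, ∀ z ∈ O m, Z m z ∈ UH)
    (hbd : ∀ R > 0, ∀ δ > 0, ∀ᶠ m in l, ∀ ζ ∈ frontier (O m), ζ ∉ E m → ‖ζ‖ < R →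
      (Tendsto (fun z => (Z m z).arg) (𝓝[O m] ζ) (𝓝 0) ∧ ζ.im < δ ∧ -δ < ζ.re) ∨
      (Tendsto (fun z => (Z m z).arg) (𝓝[O m] ζ) (𝓝 Real.pi) ∧ ζ.im < δ ∧ ζ.re < δ)) :
    TendstoLocallyUniformlyOn (fun m z => (Z m z).arg) (fun z => z.arg) l UH := by
  rw [Metric.tendstoLocallyUniformlyOn_iff]
  intro ε hε c hc
  have hc' : 0 < c.im := hc
  set η : ℝ := min (ε / 4) 1 with hη
  have hη0 : 0 < η := by positivity
  have hηε : η ≤ ε / 4 := min_le_left _ _
  -- the shift
  obtain ⟨s, hs, r₁, hr₁, hsh⟩ : ∃ s : ℝ, 0 < s ∧ ∃ r : ℝ, 0 < r ∧ ∀ w ∈ ball c r,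
      |(w + s).arg - w.arg| < η ∧ |(w - s).arg - w.arg| < η := by
    have hca : ContinuousAt Complex.arg c := Complex.continuousAt_arg (Or.inr hc'.ne')
    have hp : ContinuousAt (fun p : ℂ × ℝ => |(p.1 + p.2).arg - p.1.arg|) (c, 0) := by
      refine ContinuousAt.abs (ContinuousAt.sub ?_ ?_)
      · refine ContinuousAt.comp_of_eq (y := c) hca ?_ (by simp)
        exact (by fun_prop : Continuous fun p : ℂ × ℝ => p.1 + (p.2 : ℂ)).continuousAt
      · exact ContinuousAt.comp_of_eq (y := c) hca continuous_fst.continuousAt rfl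
    have hm : ContinuousAt (fun p : ℂ × ℝ => |(p.1 - p.2).arg - p.1.arg|) (c, 0) := by
      refine ContinuousAt.abs (ContinuousAt.sub ?_ ?_)
      · refine ContinuousAt.comp_of_eq (y := c) hca ?_ (by simp)
        exact (by fun_prop : Continuous fun p : ℂ × ℝ => p.1 - (p.2 : ℂ)).continuousAt
      · exact ContinuousAt.comp_of_eq (y := c) hca continuous_fst.continuousAt rfl
    have h1 := hp.eventually (gt_mem_nhds (show |(((c, (0:ℝ)) : ℂ × ℝ).1 +
      (((c, (0:ℝ)) : ℂ × ℝ).2 : ℂ)).arg - ((c, (0:ℝ)) : ℂ × ℝ).1.arg| < η by simpa using hη0))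
    have h2 := hm.eventually (gt_mem_nhds (show |(((c, (0:ℝ)) : ℂ × ℝ).1 -
      (((c, (0:ℝ)) : ℂ × ℝ).2 : ℂ)).arg - ((c, (0:ℝ)) : ℂ × ℝ).1.arg| < η by simpa using hη0))
    obtain ⟨r, hr, hball⟩ := Metric.eventually_nhds_iff.1 (h1.and h2)
    refine ⟨r / 2, by positivity, r, hr, fun w hw => ?_⟩
    have := hball (y := (w, r / 2)) (by
      rw [Prod.dist_eq]
      refine max_lt hw ?_
      change dist (r / 2) (0:ℝ) < r
      rw [Real.dist_eq, sub_zero, abs_of_pos (by positivity)]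
      linarith)
    exact this
  -- the barrier
  obtain ⟨R, hR, hbar⟩ := exists_bar (‖c‖ + 1) (ε := ε / 4) (by positivity)
  obtain ⟨δ₁, hδ₁, hn₁⟩ := arg_le_of_near hs hη0 (min_le_right _ _)
  obtain ⟨δ₂, hδ₂, hn₂⟩ := pi_sub_arg_le_of_near hs hη0 (min_le_right _ _)
  -- a ball
  obtain ⟨r₂, hr₂, hsub⟩ := Metric.nhds_basis_closedBall.mem_iff.1 (isOpen_UH.mem_nhds hc)
  set r : ℝ := min (min r₁ r₂) 1 with hr
  have hr0 : 0 < r := by positivity
  refine ⟨ball c r, mem_nhdsWithin_of_mem_nhds (ball_mem_nhds c hr0), ?_⟩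
  filter_upwards [hbd R hR (min δ₁ δ₂) (by positivity), hK _ hsub (isCompact_closedBall c r₂)]
    with m hm hmK w hw
  have hwO : w ∈ O m := hmK (ball_subset_closedBall (ball_subset_ball
    ((min_le_left _ _).trans (min_le_right _ _)) hw))
  have hwU : 0 < w.im := hOU m (subset_closure hwO)
  have hwr : w ∈ ball c r₁ := ball_subset_ball ((min_le_left _ _).trans (min_le_left _ _)) hw
  have hwn : ‖w‖ ≤ ‖c‖ + 1 := by
    have h1 : ‖w - c‖ < r := mem_ball_iff_norm.1 hw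
    have h2 : r ≤ 1 := min_le_right _ _
    calc ‖w‖ = ‖(w - c) + c‖ := by ring_nf
      _ ≤ ‖w - c‖ + ‖c‖ := norm_add_le _ _
      _ ≤ ‖c‖ + 1 := by linarith
  have hOU' : O m ⊆ UH := fun z hz => hOU m (subset_closure hz)
  have hfr : frontier (O m) ⊆ UH := frontier_subset_closure.trans (hOU m)
  have hup := arg_le (hOo m) (hOc m) (hOb m) hOU' hfr (E m) (hE m) (hZ m) (hZU m) (R := R) (s := s)
    (η := η) hR hη0.le (by
      intro ζ hζ hζE hζR
      rcases hm ζ hζ hζE hζR with ⟨h1, -, -⟩ | ⟨-, h2, h3⟩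
      · exact Or.inl h1
      · exact Or.inr (hn₂ ζ (hfr hζ) (lt_of_lt_of_le h2 (min_le_right _ _))
          (lt_of_lt_of_le h3 (min_le_right _ _)))) w hwO
  have hlo := le_arg (hOo m) (hOc m) (hOb m) hOU' hfr (E m) (hE m) (hZ m) (hZU m) (R := R) (s := s)
    (η := η) hR hη0.le (by
      intro ζ hζ hζE hζR
      rcases hm ζ hζ hζE hζR with ⟨-, h2, h3⟩ | ⟨h1, -, -⟩
      · refine Or.inr (hn₁ ζ (hfr hζ) (lt_of_lt_of_le h2 (min_le_left _ _)) ?_)
        have := min_le_left δ₁ δ₂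
        linarith
      · exact Or.inl h1) w hwO
  have hb := hbar w hwU hwn
  obtain ⟨h1, h2⟩ := hsh w hwr
  rw [Real.dist_eq, abs_lt]
  rw [abs_lt] at h1 h2
  constructor
  · linarith [h2.2]
  · linarith [h1.1]

/-- **3.7 in the upper half plane.** -/
theorem tendsto_id {ι : Type*} {l : Filter ι} {O : ι → Set ℂ} {Z : ι → ℂ → ℂ} (E : ι → Finset ℂ)
    (hOo : ∀ m, IsOpen (O m)) (hOc : ∀ m, IsPreconnected (O m)) (hOb : ∀ m, IsBounded (O m))
    (hOU : ∀ m, closure (O m) ⊆ UH) (hK : ∀ K ⊆ UH, IsCompact K → ∀ᶠ m in l, K ⊆ O m)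
    (hE : ∀ m, ∀ a ∈ E m, a ∉ O m) (hZ : ∀ m, DifferentiableOn ℂ (Z m) (O m))
    (hZU : ∀ m, ∀ z ∈ O m, Z m z ∈ UH) (hZI : ∀ᶠ m in l, ‖Z m I‖ = 1)
    (hbd : ∀ R > 0, ∀ δ > 0, ∀ᶠ m in l, ∀ ζ ∈ frontier (O m), ζ ∉ E m → ‖ζ‖ < R →
      (Tendsto (fun z => (Z m z).arg) (𝓝[O m] ζ) (𝓝 0) ∧ ζ.im < δ ∧ -δ < ζ.re) ∨
      (Tendsto (fun z => (Z m z).arg) (𝓝[O m] ζ) (𝓝 Real.pi) ∧ ζ.im < δ ∧ ζ.re < δ)) :
    TendstoLocallyUniformlyOn Z id l UH := by
  have harg := tendsto_arg E hOo hOc hOb hOU hK hE hZ hZU hbd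
  have hOU' : ∀ m, O m ⊆ UH := fun m z hz => hOU m (subset_closure hz)
  set F : ι → ℂ → ℂ := fun m z => Complex.log (Z m z) - Complex.log z with hF
  have hball : ∀ c ∈ UH, ∃ r : ℝ, 0 < r ∧ r ≤ 1 ∧ closedBall c r ⊆ UH ∧
      ∀ᶠ m in l, closedBall c r ⊆ O m := by
    intro c hc
    obtain ⟨r₂, hr₂, hsub⟩ := Metric.nhds_basis_closedBall.mem_iff.1 (isOpen_UH.mem_nhds hc)
    refine ⟨min r₂ 1, by positivity, min_le_right _ _,
      (closedBall_subset_closedBall (min_le_left _ _)).trans hsub, ?_⟩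
    exact hK _ ((closedBall_subset_closedBall (min_le_left _ _)).trans hsub)
      (isCompact_closedBall _ _)
  have him : TendstoLocallyUniformlyOn (fun m z => (F m z).im) (fun _ => 0) l UH := by
    rw [Metric.tendstoLocallyUniformlyOn_iff] at harg ⊢
    intro ε hε c hc
    obtain ⟨t, ht, h⟩ := harg ε hε c hc
    refine ⟨t, ht, ?_⟩
    filter_upwards [h] with m hm z hz
    have := hm z hz
    rw [Real.dist_eq] at this
    rw [dist_zero_left, Real.norm_eq_abs, hF]
    simp only [Complex.sub_im, Complex.log_im]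
    rw [abs_sub_comm]
    exact this
  have hI : I ∈ UH := by rw [mem_UH]; simp
  have hlog : TendstoLocallyUniformlyOn F (fun _ => 0) l UH := by
    refine tendsto_of_im isOpen_UH convex_UH.isPreconnected ?_ him hI ?_
    · intro c hc
      obtain ⟨r, hr, -, hrU, h⟩ := hball c hc
      refine ⟨r, hr, ?_⟩
      filter_upwards [h] with m hm
      have hb : ball c r ⊆ O m := ball_subset_closedBall.trans hm
      have h1 := (differentiableOn_log_sub (hZ m) (hZU m) 0).mono hb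
      have h2 := (differentiableOn_log_add (hOU' m) 0).mono hb
      refine (h1.sub h2).congr fun z _ => ?_
      simp [hF]
    · have hre : ∀ᶠ m in l, F m I = (((Z m I).arg - I.arg : ℝ) : ℂ) * I := by
        obtain ⟨r, hr, -, -, h⟩ := hball I hI
        filter_upwards [hZI] with m hm
        rw [hF]
        apply Complex.ext
        · simp [Complex.log_re, hm]
        · simp [Complex.log_im]
      refine Tendsto.congr' (EventuallyEq.symm hre) ?_
      have h1 := harg.tendsto_at hI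
      have h2 : Tendsto (fun m => (((Z m I).arg - I.arg : ℝ) : ℂ) * I) l
          (𝓝 (((I.arg - I.arg : ℝ) : ℂ) * I)) :=
        ((Complex.continuous_ofReal.tendsto _).comp (h1.sub_const _)).mul_const _
      simpa using h2
  -- exponentiate
  rw [Metric.tendstoLocallyUniformlyOn_iff] at hlog ⊢
  intro ε hε c hc
  set B : ℝ := ‖c‖ + 1 with hB
  have hB0 : 0 < B := by positivity
  obtain ⟨t, ht, h⟩ := hlog (min 1 (ε / (2 * B))) (by positivity) c hc
  obtain ⟨r, hr, hr1, hrU, hO⟩ := hball c hc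
  refine ⟨t ∩ ball c r, inter_mem ht (mem_nhdsWithin_of_mem_nhds (ball_mem_nhds c hr)), ?_⟩
  filter_upwards [h, hO] with m hm hmO z hz
  have hzt := hm z hz.1
  have hzO : z ∈ O m := hmO (ball_subset_closedBall hz.2)
  rw [dist_zero_left] at hzt
  have hz0 : z ≠ 0 := by
    rintro rfl
    have := hOU' m hzO
    rw [mem_UH] at this
    simp at this
  have hZ0 : Z m z ≠ 0 := by
    intro h0
    have := hZU m z hzO
    rw [mem_UH, h0] at this
    simp at this
  have hexp : Z m z = z * Complex.exp (F m z) := by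
    rw [hF]
    simp only
    rw [Complex.exp_sub, Complex.exp_log hZ0, Complex.exp_log hz0]
    field_simp
  have h1 : ‖F m z‖ < 1 := lt_of_lt_of_le hzt (min_le_left _ _)
  have h2 : ‖F m z‖ < ε / (2 * B) := lt_of_lt_of_le hzt (min_le_right _ _)
  have h3 := Complex.norm_exp_sub_one_le (x := F m z) h1.le
  have hzn : ‖z‖ ≤ B := by
    have h5 : ‖z - c‖ < r := mem_ball_iff_norm.1 hz.2
    calc ‖z‖ = ‖(z - c) + c‖ := by ring_nf
      _ ≤ ‖z - c‖ + ‖c‖ := norm_add_le _ _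
      _ ≤ B := by linarith
  rw [dist_comm, dist_eq_norm, hexp]
  have e : z * Complex.exp (F m z) - id z = z * (Complex.exp (F m z) - 1) := by
    simp only [id]; ring
  rw [e, norm_mul]
  calc ‖z‖ * ‖Complex.exp (F m z) - 1‖ ≤ B * (2 * ‖F m z‖) := by gcongr
    _ < B * (2 * (ε / (2 * B))) := by gcongr
    _ = ε := by field_simp

end Pool.Agent.H91.M7
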