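import Mathlib
import Pool.Agent.H83.Lo.Inj
import Pool.Agent.H82.Q1.SLE
import Pool.Agent.H91.M7.Start2

set_option autoImplicit false

/-!
# The start of the chain in a Jordan domain (M7, 3.7, chart form)
-/

namespace Pool.Agent.H91.M7

open Complex Metric Set Filter Topology Bornology
open Pool.Agent.H83.Lo Pool.Agent.H82.Q1

variable {D : Set ℂ} {a b : ℂ} {φ : ℂ → ℂ}

lemma isClosed_insert_image (hφ : IsChart D a b φ) {S : Set ℂ} (hS : IsClosed S) (hSc : S ⊆ cHH) :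
    IsClosed (insert b (φ '' S)) := by
  rw [← closure_subset_iff_isClosed]
  intro p hp
  by_contra hcon
  have hpb : p ≠ b := fun h => hcon (h ▸ mem_insert _ _)
  have hd : 0 < dist p b := dist_pos.2 hpb
  have h1 := hφ.infty.eventually (Metric.ball_mem_nhds b (half_pos hd))
  rw [Filter.eventually_inf_principal] at h1
  obtain ⟨R, -, hR⟩ := (Metric.hasBasis_cobounded_compl_closedBall (0:ℂ)).eventually_iff.1 h1
  set K : Set ℂ := S ∩ closedBall 0 R with hK
  have hKc : IsCompact K := (isCompact_closedBall (0:ℂ) R).inter_left hS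
  have hKi : IsClosed (φ '' K) :=
    (hKc.image_of_continuousOn (hφ.cont.mono (inter_subset_left.trans hSc))).isClosed
  have hsub : insert b (φ '' S) ⊆ φ '' K ∪ closedBall b (dist p b / 2) := by
    rintro _ (rfl | ⟨z, hz, rfl⟩)
    · right
      rw [mem_closedBall, dist_self]
      linarith
    · by_cases hzR : z ∈ closedBall (0:ℂ) R
      · exact Or.inl ⟨z, ⟨hz, hzR⟩, rfl⟩
      · exact Or.inr (ball_subset_closedBall (hR hzR (hSc hz)))
  have hcl : IsClosed (φ '' K ∪ closedBall b (dist p b / 2)) := hKi.union isClosed_closedBall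
  rcases closure_minimal hsub hcl hp with ⟨z, hz, rfl⟩ | h
  · exact hcon (mem_insert_of_mem _ ⟨z, hz.1, rfl⟩)
  · rw [mem_closedBall] at h; linarith

lemma isClosed_posArc (hφ : IsChart D a b φ) : IsClosed (posArc φ b) := by
  refine isClosed_insert_image hφ ?_ fun z hz => hz.1.ge
  exact (isClosed_eq Complex.continuous_im continuous_const).inter
    (isClosed_le continuous_const Complex.continuous_re)

lemma isClosed_negArc (hφ : IsChart D a b φ) : IsClosed (negArc φ b) := by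
  refine isClosed_insert_image hφ ?_ fun z hz => hz.1.ge
  exact (isClosed_eq Complex.continuous_im continuous_const).inter
    (isClosed_le Complex.continuous_re continuous_const)

lemma exists_dist {K A : Set ℂ} (hφ : IsChart D a b φ) (hK : IsCompact K) (hKc : K ⊆ cHH)
    (hA : IsClosed A) (hAn : A.Nonempty) (hd : ∀ z ∈ K, φ z ∉ A) :
    ∃ δ : ℝ, 0 < δ ∧ ∀ z ∈ K, δ ≤ infDist (φ z) A := by
  rcases K.eq_empty_or_nonempty with rfl | hKn
  · exact ⟨1, one_pos, fun z hz => absurd hz (notMem_empty z)⟩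
  have hc : ContinuousOn (fun z => infDist (φ z) A) K :=
    (continuous_infDist_pt A).comp_continuousOn (hφ.cont.mono hKc)
  obtain ⟨z, hz, hmin⟩ := hK.exists_isMinOn hKn hc
  refine ⟨infDist (φ z) A, (hA.notMem_iff_infDist_pos hAn).1 (hd z hz), fun w hw => hmin hw⟩

/-- points of `D` close to the positive arc, far from `b`, are close to the positive half line -/
lemma near_posArc (hφ : IsChart D a b φ) (R : ℝ) {δ : ℝ} (hδ : 0 < δ) :
    ∃ δ' : ℝ, 0 < δ' ∧ ∀ ζ : ℂ, 0 < ζ.im → ‖ζ‖ ≤ R → infDist (φ ζ) (posArc φ b) < δ' →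
      ζ.im < δ ∧ -δ < ζ.re := by
  set K : Set ℂ := closedBall 0 R ∩ {z | 0 ≤ z.im ∧ (δ ≤ z.im ∨ z.re ≤ -δ)} with hK
  have hcl : IsClosed {z : ℂ | 0 ≤ z.im ∧ (δ ≤ z.im ∨ z.re ≤ -δ)} :=
    (isClosed_le continuous_const Complex.continuous_im).inter
      ((isClosed_le continuous_const Complex.continuous_im).union
        (isClosed_le Complex.continuous_re continuous_const))
  have hKc : IsCompact K := (isCompact_closedBall (0:ℂ) R).inter_right hcl
  have hKH : K ⊆ cHH := fun z hz => hz.2.1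
  obtain ⟨δ', h0, h⟩ := exists_dist hφ hKc hKH (isClosed_posArc hφ) ⟨b, mem_insert _ _⟩ (by
    rintro z ⟨-, hz0, hz⟩ (h | ⟨x, ⟨hx0, hx1⟩, hx⟩)
    · exact hφ.ne ⟨z, hz0, h⟩
    · have := hφ.inj (show x ∈ cHH from hx0.ge) (show z ∈ cHH from hz0) hx
      rw [← this] at hz
      rcases hz with hz | hz <;> linarith)
  refine ⟨δ', h0, fun ζ hζ hR hlt => ?_⟩
  by_contra hcon
  rw [not_and_or, not_lt, not_lt] at hcon
  have := h ζ ⟨mem_closedBall_zero_iff.2 hR, hζ.le, hcon⟩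
  linarith

lemma near_negArc (hφ : IsChart D a b φ) (R : ℝ) {δ : ℝ} (hδ : 0 < δ) :
    ∃ δ' : ℝ, 0 < δ' ∧ ∀ ζ : ℂ, 0 < ζ.im → ‖ζ‖ ≤ R → infDist (φ ζ) (negArc φ b) < δ' →
      ζ.im < δ ∧ ζ.re < δ := by
  set K : Set ℂ := closedBall 0 R ∩ {z | 0 ≤ z.im ∧ (δ ≤ z.im ∨ δ ≤ z.re)} with hK
  have hcl : IsClosed {z : ℂ | 0 ≤ z.im ∧ (δ ≤ z.im ∨ δ ≤ z.re)} :=
    (isClosed_le continuous_const Complex.continuous_im).inter
      ((isClosed_le continuous_const Complex.continuous_im).union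
        (isClosed_le continuous_const Complex.continuous_re))
  have hKc : IsCompact K := (isCompact_closedBall (0:ℂ) R).inter_right hcl
  have hKH : K ⊆ cHH := fun z hz => hz.2.1
  obtain ⟨δ', h0, h⟩ := exists_dist hφ hKc hKH (isClosed_negArc hφ) ⟨b, mem_insert _ _⟩ (by
    rintro z ⟨-, hz0, hz⟩ (h | ⟨x, ⟨hx0, hx1⟩, hx⟩)
    · exact hφ.ne ⟨z, hz0, h⟩
    · have := hφ.inj (show x ∈ cHH from hx0.ge) (show z ∈ cHH from hz0) hx
      rw [← this] at hz
      rcases hz with hz | hz <;> linarith)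
  refine ⟨δ', h0, fun ζ hζ hR hlt => ?_⟩
  by_contra hcon
  rw [not_and_or, not_lt, not_lt] at hcon
  have := h ζ ⟨mem_closedBall_zero_iff.2 hR, hζ.le, hcon⟩
  linarith

/-- points `φ ζ` with `ζ` bounded stay away from `b` -/
lemma dist_target (hφ : IsChart D a b φ) (R : ℝ) :
    ∃ δ' : ℝ, 0 < δ' ∧ ∀ ζ : ℂ, 0 ≤ ζ.im → ‖ζ‖ ≤ R → δ' ≤ dist (φ ζ) b := by
  have hKc : IsCompact (closedBall (0:ℂ) R ∩ {z | 0 ≤ z.im}) :=
    (isCompact_closedBall (0:ℂ) R).inter_right (isClosed_le continuous_const Complex.continuous_im)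
  obtain ⟨δ', h0, h⟩ := exists_dist hφ hKc (fun z hz => hz.2) (A := {b}) isClosed_singleton
    (singleton_nonempty b) (fun z hz h => hφ.ne ⟨z, hz.2, h⟩)
  refine ⟨δ', h0, fun ζ hζ hR => ?_⟩
  have := h ζ ⟨mem_closedBall_zero_iff.2 hR, hζ⟩
  rwa [infDist_singleton] at this

lemma HH_eq_UH : HH = UH := rfl

lemma isOpen_HH : IsOpen HH := isOpen_UH

lemma HH_sub_cHH : HH ⊆ cHH := fun z hz => le_of_lt (show 0 < z.im from hz)

/-- the inverse of a chart on `D` -/
noncomputable def inv (φ : ℂ → ℂ) : ℂ → ℂ := Function.invFunOn φ HH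

lemma injHH (hφ : IsChart D a b φ) : InjOn φ HH := hφ.inj.mono HH_sub_cHH

lemma inv_left (hφ : IsChart D a b φ) {z : ℂ} (hz : z ∈ HH) : inv φ (φ z) = z :=
  (injHH hφ).leftInvOn_invFunOn hz

lemma inv_mem (hφ : IsChart D a b φ) {p : ℂ} (hp : p ∈ D) : inv φ p ∈ HH := by
  rw [← hφ.image] at hp
  exact Function.invFunOn_mem hp

lemma inv_right (hφ : IsChart D a b φ) {p : ℂ} (hp : p ∈ D) : φ (inv φ p) = p := by
  rw [← hφ.image] at hp
  exact Function.invFunOn_eq hp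

lemma inv_diff (hφ : IsChart D a b φ) : DifferentiableOn ℂ (inv φ) D := by
  rw [← hφ.image]
  exact Pool.Agent.H83.Lo.differentiableOn_inv isOpen_HH hφ.diff (injHH hφ)
    fun z hz => inv_left hφ hz

lemma isOpen_dom (hφ : IsChart D a b φ) : IsOpen D := by
  rw [← hφ.image]
  exact isOpen_image isOpen_HH hφ.diff (injHH hφ)

/-- **3.7, chart form.** -/
theorem start_chart {ι : Type*} {l : Filter ι} (hφ : IsChart D a b φ) {G : ι → Set ℂ}
    {Z : ι → ℂ → ℂ} (E : ι → Finset ℂ) (hGo : ∀ m, IsOpen (G m)) (hGc : ∀ m, IsPreconnected (G m))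
    (hGb : ∀ m, IsBounded (G m)) (hGD : ∀ m, closure (G m) ⊆ D)
    (hK : ∀ K ⊆ D, IsCompact K → ∀ᶠ m in l, K ⊆ G m) (hE : ∀ m, ∀ e ∈ E m, e ∉ G m)
    (hZ : ∀ m, DifferentiableOn ℂ (Z m) (G m)) (hZU : ∀ m, ∀ z ∈ G m, 0 < (Z m z).im)
    (hZI : ∀ᶠ m in l, ‖Z m (φ I)‖ = 1)
    (hbd : ∀ δ > 0, ∀ᶠ m in l, ∀ p ∈ frontier (G m), p ∉ E m → dist p b < δ ∨
      (Tendsto (fun z => (Z m z).arg) (𝓝[G m] p) (𝓝 0) ∧ infDist p (posArc φ b) < δ) ∨
      (Tendsto (fun z => (Z m z).arg) (𝓝[G m] p) (𝓝 Real.pi) ∧ infDist p (negArc φ b) < δ)) :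
    TendstoLocallyUniformlyOn (fun m w => Z m (φ w)) id l HH := by
  classical
  have hGD' : ∀ m, G m ⊆ D := fun m => subset_closure.trans (hGD m)
  set O : ι → Set ℂ := fun m => inv φ '' G m with hO
  have hmemO : ∀ m w, w ∈ O m ↔ w ∈ HH ∧ φ w ∈ G m := by
    intro m w
    constructor
    · rintro ⟨p, hp, rfl⟩
      exact ⟨inv_mem hφ (hGD' m hp), by rw [inv_right hφ (hGD' m hp)]; exact hp⟩
    · rintro ⟨hw, hp⟩
      exact ⟨φ w, hp, inv_left hφ hw⟩
  have hOeq : ∀ m, O m = HH ∩ φ ⁻¹' G m := by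
    intro m; ext w; exact hmemO m w
  have hOo : ∀ m, IsOpen (O m) := by
    intro m
    rw [hOeq m]
    exact hφ.diff.continuousOn.isOpen_inter_preimage isOpen_HH (hGo m)
  have hcpt : ∀ m, IsCompact (inv φ '' closure (G m)) := fun m =>
    (hGb m).isCompact_closure.image_of_continuousOn ((inv_diff hφ).continuousOn.mono (hGD m))
  have hOcl : ∀ m, closure (O m) ⊆ inv φ '' closure (G m) := fun m =>
    closure_minimal (image_mono subset_closure) (hcpt m).isClosed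
  have hcont : ∀ ζ ∈ HH, ContinuousAt φ ζ := fun ζ hζ =>
    hφ.diff.continuousOn.continuousAt (isOpen_HH.mem_nhds hζ)
  have hmaps : ∀ m, MapsTo φ (O m) (G m) := fun m w hw => ((hmemO m w).1 hw).2
  have hfrO : ∀ m, ∀ ζ ∈ frontier (O m), ζ ∈ HH ∧ φ ζ ∈ frontier (G m) := by
    intro m ζ hζ
    have hζc : ζ ∈ closure (O m) := frontier_subset_closure hζ
    have hζH : ζ ∈ HH := by
      obtain ⟨p, hp, rfl⟩ := hOcl m hζc
      exact inv_mem hφ (hGD m hp)
    refine ⟨hζH, ?_⟩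
    have h1 : φ ζ ∈ closure (G m) :=
      (hcont ζ hζH).continuousWithinAt.mem_closure hζc (hmaps m)
    have h2 : ζ ∉ O m := by
      rw [frontier, (hOo m).interior_eq] at hζ
      exact hζ.2
    rw [frontier, (hGo m).interior_eq]
    exact ⟨h1, fun h => h2 ((hmemO m ζ).2 ⟨hζH, h⟩)⟩
  have key := tendsto_id (l := l) (O := O) (Z := fun m w => Z m (φ w))
    (fun m => ((E m).filter (· ∈ D)).image (inv φ)) hOo
    (fun m => (hGc m).image _ ((inv_diff hφ).continuousOn.mono (hGD' m)))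
    (fun m => (hcpt m).isBounded.subset (image_mono subset_closure))
    (fun m w hw => by
      obtain ⟨p, hp, rfl⟩ := hOcl m hw
      exact inv_mem hφ (hGD m hp))
    ?_ ?_ ?_ ?_ hZI ?_
  · exact key
  · intro K hKU hKc
    have h1 : φ '' K ⊆ D := by
      rw [← hφ.image]; exact image_mono hKU
    have h2 : IsCompact (φ '' K) :=
      hKc.image_of_continuousOn (hφ.diff.continuousOn.mono hKU)
    filter_upwards [hK _ h1 h2] with m hm w hw
    exact (hmemO m w).2 ⟨hKU hw, hm ⟨w, hw, rfl⟩⟩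
  · intro m w hw
    rw [Finset.mem_image] at hw
    obtain ⟨e, he, rfl⟩ := hw
    rw [Finset.mem_filter] at he
    intro h
    have := ((hmemO m _).1 h).2
    rw [inv_right hφ he.2] at this
    exact hE m e he.1 this
  · intro m
    exact (hZ m).comp (hφ.diff.mono fun w hw => ((hmemO m w).1 hw).1) (hmaps m)
  · intro m w hw
    exact hZU m _ (hmaps m hw)
  · intro R hR δ hδ
    obtain ⟨δ₁, hδ₁, h₁⟩ := near_posArc hφ R hδ
    obtain ⟨δ₂, hδ₂, h₂⟩ := near_negArc hφ R hδ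
    obtain ⟨δ₃, hδ₃, h₃⟩ := dist_target hφ R
    filter_upwards [hbd (min (min δ₁ δ₂) δ₃) (by positivity)] with m hm ζ hζ hζE hζR
    obtain ⟨hζH, hζf⟩ := hfrO m ζ hζ
    have hζH' : 0 < ζ.im := hζH
    have hpE : φ ζ ∉ E m := by
      intro h
      apply hζE
      rw [Finset.mem_image]
      refine ⟨φ ζ, Finset.mem_filter.2 ⟨h, hGD m (frontier_subset_closure hζf)⟩, inv_left hφ hζH⟩
    have htend : Tendsto φ (𝓝[O m] ζ) (𝓝[G m] (φ ζ)) :=
      tendsto_nhdsWithin_iff.2 ⟨(hcont ζ hζH).tendsto.mono_left nhdsWithin_le_nhds,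
        eventually_of_mem self_mem_nhdsWithin (hmaps m)⟩
    rcases hm _ hζf hpE with h | ⟨h, h'⟩ | ⟨h, h'⟩
    · have := h₃ ζ hζH'.le hζR.le
      have := min_le_right (min δ₁ δ₂) δ₃
      linarith
    · left
      refine ⟨h.comp htend, h₁ ζ hζH' hζR.le (lt_of_lt_of_le h' ?_)⟩
      exact (min_le_left _ _).trans (min_le_left _ _)
    · right
      refine ⟨h.comp htend, h₂ ζ hζH' hζR.le (lt_of_lt_of_le h' ?_)⟩
      exact (min_le_left _ _).trans (min_le_right _ _)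

end Pool.Agent.H91.M7
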